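import Mathlib
import Pool.Agent.U41.PH.Stm
import Pool.Agent.TH214.RM.Crit

/-!
# Package U23 of project PH: the universal form is generic (critical points, section `x_0 = 0`)
-/

set_option autoImplicit false

namespace Pool.Agent.U41.PH

open Pool.Agent.H918R2.Quad Pool.Agent.TH214.RM Pool.Agent.U41.OD MvPolynomial

theorem U23_chain {ι L : Type} [Fintype ι] [Field L] (D : Derivation ℤ L L) (t : ι → L)
    (N : MvPolynomial ι ℤ) : D (aeval t N) = ∑ l, aeval t (pderiv l N) * D (t l) := by
  classical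
  induction N using MvPolynomial.induction_on with
  | C a =>
    have h1 : (aeval t (C a : MvPolynomial ι ℤ) : L) = algebraMap ℤ L a := by simp
    rw [h1, Derivation.map_algebraMap]
    simp
  | add p q hp hq =>
    rw [map_add, map_add, hp, hq, ← Finset.sum_add_distrib]
    refine Finset.sum_congr rfl fun l _ => ?_
    rw [map_add, map_add, add_mul]
  | mul_X p i hp =>
    rw [map_mul, aeval_X, Derivation.leibniz, hp, smul_eq_mul, smul_eq_mul, Finset.mul_sum]
    have h1 : aeval t p * D (t i) = ∑ l, aeval t p * (if l = i then D (t l) else 0) := by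
      rw [← Finset.mul_sum]
      simp
    rw [h1, ← Finset.sum_add_distrib]
    refine Finset.sum_congr rfl fun l _ => ?_
    rw [Derivation.leibniz, map_add, smul_eq_mul, smul_eq_mul, map_mul, map_mul, aeval_X,
      pderiv_X]
    by_cases hl : l = i
    · subst hl
      simp
      ring
    · rw [Pi.single_eq_of_ne (Ne.symm hl), if_neg hl]
      simp
      ring

theorem U23_der (hD : S_DE) {k : ℕ} {K : Type} [Field K] [Algebra (MvPolynomial (Fin k) ℤ) K]
    [IsFractionRing (MvPolynomial (Fin k) ℤ) K] {L : Type} [Field L] [Algebra K L]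
    (hL : Algebra.IsAlgebraic K L) (r : Fin k) :
    ∃ D : Derivation ℤ L L, ∀ m, D (algebraMap K L
      (algebraMap (MvPolynomial (Fin k) ℤ) K (X m))) = if m = r then 1 else 0 := by
  classical
  let φ : MvPolynomial (Fin k) ℤ →+* L :=
    (algebraMap K L).comp (algebraMap (MvPolynomial (Fin k) ℤ) K)
  have hφ : Function.Injective φ :=
    (algebraMap K L).injective.comp (IsFractionRing.injective (MvPolynomial (Fin k) ℤ) K)
  haveI : CharZero L := charZero_of_injective_ringHom hφ
  letI : Algebra (MvPolynomial (Fin k) ℤ) L := φ.toAlgebra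
  haveI : IsScalarTower (MvPolynomial (Fin k) ℤ) K L := IsScalarTower.of_algebraMap_eq' rfl
  obtain ⟨D, hD'⟩ := hD φ (Pi.single r 1) (fun f hf => by
    have h1 : f = 0 := hφ (by rw [hf, map_zero])
    rw [h1]
    simp) (fun z => by
    have h1 : IsAlgebraic (MvPolynomial (Fin k) ℤ) z :=
      (IsFractionRing.isAlgebraic_iff (MvPolynomial (Fin k) ℤ) K L).2 (hL.isAlgebraic z)
    obtain ⟨p, hp, hpz⟩ := h1
    refine ⟨p, (Polynomial.map_ne_zero_iff hφ).2 hp, ?_⟩
    rw [Polynomial.eval_map]
    exact hpz)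
  refine ⟨D, fun m => ?_⟩
  have h1 := hD' (X m)
  have h2 : ∀ i, φ (pderiv i (X m)) * (Pi.single r 1 : Fin k → L) i =
      if i = r then (if m = r then 1 else 0) else 0 := by
    intro i
    by_cases hi : i = r
    · subst hi
      rw [Pi.single_eq_same, mul_one, if_pos rfl, pderiv_X]
      by_cases hm : m = i
      · subst hm
        rw [Pi.single_eq_same, if_pos rfl, map_one]
      · rw [Pi.single_eq_of_ne hm, if_neg hm, map_zero]
    · rw [Pi.single_eq_of_ne hi, mul_zero, if_neg hi]
  rw [Finset.sum_congr rfl fun i _ => h2 i] at h1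
  rw [Finset.sum_ite_eq' Finset.univ r, if_pos (Finset.mem_univ _)] at h1
  exact h1

/-- a combination of integral polynomials with the variables as coefficients -/
noncomputable def U23_W {k : ℕ} {ι : Type} (K : Type) [Field K]
    [Algebra (MvPolynomial (Fin k) ℤ) K] (N : Fin k → MvPolynomial ι ℤ) : MvPolynomial ι K :=
  ∑ m, C (algebraMap (MvPolynomial (Fin k) ℤ) K (X m)) * map (Int.castRingHom K) (N m)

theorem U23_pderiv {k : ℕ} {ι : Type} (K : Type) [Field K]
    [Algebra (MvPolynomial (Fin k) ℤ) K] (N : Fin k → MvPolynomial ι ℤ) (l : ι) :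
    pderiv l (U23_W K N) = U23_W K fun m => pderiv l (N m) := by
  unfold U23_W
  rw [map_sum]
  refine Finset.sum_congr rfl fun m _ => ?_
  rw [pderiv_C_mul, pderiv_map]

theorem U23_aeval {k : ℕ} {ι : Type} (K : Type) [Field K]
    [Algebra (MvPolynomial (Fin k) ℤ) K] {L : Type} [Field L] [Algebra K L]
    (N : Fin k → MvPolynomial ι ℤ) (t : ι → L) :
    aeval t (U23_W K N) = ∑ m, algebraMap K L (algebraMap (MvPolynomial (Fin k) ℤ) K (X m)) *
      aeval t (N m) := by
  unfold U23_W
  rw [map_sum]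
  refine Finset.sum_congr rfl fun m _ => ?_
  rw [map_mul, aeval_C]
  congr 1
  rw [aeval_def, eval₂_map, aeval_def]
  congr 1
  exact RingHom.ext_int _ _

/-- the equation obtained by deriving a relation -/
theorem U23_key {k : ℕ} {ι : Type} [Fintype ι] (K : Type) [Field K]
    [Algebra (MvPolynomial (Fin k) ℤ) K] {L : Type} [Field L] [Algebra K L]
    (N : Fin k → MvPolynomial ι ℤ) (t : ι → L) (D : Derivation ℤ L L) (r : Fin k)
    (hD : ∀ m, D (algebraMap K L (algebraMap (MvPolynomial (Fin k) ℤ) K (X m))) =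
      if m = r then 1 else 0) :
    D (aeval t (U23_W K N)) = aeval t (N r) +
      ∑ l, aeval t (pderiv l (U23_W K N)) * D (t l) := by
  classical
  rw [U23_aeval, map_sum]
  have h1 : ∀ m, D (algebraMap K L (algebraMap (MvPolynomial (Fin k) ℤ) K (X m)) *
      aeval t (N m)) = (if m = r then aeval t (N m) else 0) +
      ∑ l, (algebraMap K L (algebraMap (MvPolynomial (Fin k) ℤ) K (X m)) *
        aeval t (pderiv l (N m))) * D (t l) := by
    intro m
    rw [Derivation.leibniz, hD, U23_chain, smul_eq_mul, smul_eq_mul, Finset.mul_sum, add_comm]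
    congr 1
    · split_ifs <;> simp
    · refine Finset.sum_congr rfl fun l _ => ?_
      ring
  rw [Finset.sum_congr rfl fun m _ => h1 m, Finset.sum_add_distrib, Finset.sum_ite_eq']
  rw [if_pos (Finset.mem_univ _), Finset.sum_comm]
  congr 1
  refine Finset.sum_congr rfl fun l _ => ?_
  rw [U23_pderiv, U23_aeval, Finset.sum_mul]

theorem U23_univ {n d k : ℕ} (ex : Fin k ≃ Idx n d) (K : Type) [Field K]
    [Algebra (MvPolynomial (Fin k) ℤ) K] :
    map (algebraMap (MvPolynomial (Fin k) ℤ) K) (univ ex) =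
      U23_W K fun m => monomial (ex m).1 (1 : ℤ) := by
  unfold univ form U23_W
  rw [map_sum]
  refine Finset.sum_congr rfl fun m _ => ?_
  rw [map_monomial, map_monomial, map_one, C_mul_monomial, mul_one]

theorem U3_ok (hD : S_DE) (hP : S_PT) : S_U3 := by
  classical
  intro n d k ex hd K _ _ _ G hG i hi
  by_contra hcon
  obtain ⟨L, _, _, hL, y, hy, hyi⟩ := hP _ _ hcon
  rw [aeval_X] at hyi
  have hα : (Finsupp.single i d : Fin (n + 2) →₀ ℕ).degree = d ∧
      (Finsupp.single i d : Fin (n + 2) →₀ ℕ) ≠ Finsupp.single 0 d := by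
    refine ⟨Finsupp.degree_single _ _, fun h => ?_⟩
    have h1 := DFunLike.congr_fun h i
    rw [Finsupp.single_eq_same, Finsupp.single_eq_of_ne hi] at h1
    omega
  let r : Fin k := ex.symm ⟨Finsupp.single i d, hα⟩
  have hr : (ex r).1 = Finsupp.single i d := by
    simp [r]
  obtain ⟨D, hDr⟩ := U23_der hD (K := K) hL r
  have h0 : aeval y (X 0 : MvPolynomial (Fin (n + 2)) K) = 0 :=
    hy _ (Ideal.subset_span (Set.mem_insert _ _))
  rw [aeval_X] at h0
  have h1 : aeval y G = 0 :=
    hy _ (Ideal.subset_span (Set.mem_insert_of_mem _ (Set.mem_insert _ _)))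
  have h2 : ∀ j : Fin (n + 2), j ≠ 0 → aeval y (pderiv j G) = 0 := fun j hj =>
    hy _ (Ideal.subset_span (Set.mem_insert_of_mem _ (Set.mem_insert_of_mem _
      ⟨⟨j, hj⟩, rfl⟩)))
  rw [U23_univ ex K] at hG
  have h3 := U23_key K (fun m => monomial (ex m).1 (1 : ℤ)) y D r hDr
  rw [← hG, h1, map_zero] at h3
  have h4 : ∑ l, aeval y (pderiv l G) * D (y l) = 0 := by
    refine Finset.sum_eq_zero fun l _ => ?_
    by_cases hl : l = 0
    · subst hl
      rw [h0, map_zero, mul_zero]
    · rw [h2 l hl, zero_mul]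
  rw [h4, add_zero] at h3
  simp only [hr] at h3
  rw [← X_pow_eq_monomial, map_pow, aeval_X] at h3
  exact hyi (pow_eq_zero_iff (by omega) |>.1 h3.symm)

theorem U2_ok (hD : S_DE) (hP : S_PT) : S_U2 := by
  classical
  intro n d k ex hd K _ _ _ G hG
  by_contra hcon
  have hcon' : (1 : MvPolynomial {j : Fin (n + 2) // j ≠ 0} K) ∉
      (Ideal.span (insert (hess (deh 0 G)).det
        (Set.range fun j => pderiv j (deh 0 G)))).radical := by
    rintro ⟨N, hN⟩
    rw [one_pow] at hN
    exact hcon hN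
  obtain ⟨L, _, _, hL, y, hy, -⟩ := hP _ _ hcon'
  -- the point of the affine space
  let t : Fin (n + 2) → L := fun i => if h : i ≠ 0 then y ⟨i, h⟩ else 1
  have ht0 : t 0 = 1 := by simp [t]
  have hty : (fun j : {j : Fin (n + 2) // j ≠ 0} => t j) = y := by
    funext j
    simp [t, j.2]
  have hdeh : ∀ P : MvPolynomial (Fin (n + 2)) K, aeval y (deh 0 P) = aeval t P := by
    intro P
    rw [← hty]
    exact aeval_deh 0 t ht0 P
  have h1 : ∀ i : {j : Fin (n + 2) // j ≠ 0}, aeval t (pderiv (i : Fin (n + 2)) G) = 0 := by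
    intro i
    rw [← hdeh, ← pderiv_deh]
    exact hy _ (Ideal.subset_span (Set.mem_insert_of_mem _ ⟨i, rfl⟩))
  have h2 : aeval y (hess (deh 0 G)).det = 0 :=
    hy _ (Ideal.subset_span (Set.mem_insert _ _))
  rw [U23_univ ex K] at hG
  -- the derivations
  have hα : ∀ j : {j : Fin (n + 2) // j ≠ 0},
      (Finsupp.single (j : Fin (n + 2)) 1 + Finsupp.single 0 (d - 1) :
        Fin (n + 2) →₀ ℕ).degree = d ∧
      (Finsupp.single (j : Fin (n + 2)) 1 + Finsupp.single 0 (d - 1) : Fin (n + 2) →₀ ℕ) ≠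
        Finsupp.single 0 d := by
    intro j
    refine ⟨?_, fun h => ?_⟩
    · rw [map_add, Finsupp.degree_single, Finsupp.degree_single]
      omega
    · have h1 := DFunLike.congr_fun h (j : Fin (n + 2))
      rw [Finsupp.add_apply, Finsupp.single_eq_same, Finsupp.single_eq_of_ne j.2,
        Finsupp.single_eq_of_ne j.2] at h1
      omega
  let r : {j : Fin (n + 2) // j ≠ 0} → Fin k := fun j => ex.symm ⟨_, hα j⟩
  have hr : ∀ j, (ex (r j)).1 = Finsupp.single (j : Fin (n + 2)) 1 + Finsupp.single 0 (d - 1) := by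
    intro j
    simp [r]
  choose D hDr using fun j => U23_der hD (K := K) hL (r j)
  -- the matrices
  let M : Matrix {j : Fin (n + 2) // j ≠ 0} {j : Fin (n + 2) // j ≠ 0} L :=
    Matrix.of fun i l => aeval t (pderiv (l : Fin (n + 2)) (pderiv (i : Fin (n + 2)) G))
  let B : Matrix {j : Fin (n + 2) // j ≠ 0} {j : Fin (n + 2) // j ≠ 0} L :=
    Matrix.of fun l j => D j (y l)
  have hMB : M * B = -1 := by
    ext i j
    rw [Matrix.mul_apply, Matrix.neg_apply]
    have h3 := U23_key K (fun m => pderiv (i : Fin (n + 2)) (monomial (ex m).1 (1 : ℤ))) t (D j)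
      (r j) (hDr j)
    rw [← U23_pderiv, ← hG, h1 i, map_zero] at h3
    have h4 : aeval t (pderiv (i : Fin (n + 2)) (monomial (ex (r j)).1 (1 : ℤ))) =
        (1 : Matrix {j : Fin (n + 2) // j ≠ 0} {j : Fin (n + 2) // j ≠ 0} L) i j := by
      have h5 : (monomial (ex (r j)).1 (1 : ℤ) : MvPolynomial (Fin (n + 2)) ℤ) =
          X (j : Fin (n + 2)) * X 0 ^ (d - 1) := by
        rw [hr j, X_pow_eq_monomial, X, monomial_mul, one_mul]
      rw [h5, Derivation.leibniz, Derivation.leibniz_pow, pderiv_X_of_ne (Ne.symm i.2), pderiv_X]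
      simp only [smul_eq_mul, mul_zero, smul_zero, zero_add]
      rw [map_mul, map_pow, aeval_X, ht0, one_pow, one_mul, Matrix.one_apply]
      by_cases hij : i = j
      · subst hij
        rw [if_pos rfl, Pi.single_eq_same, map_one]
      · rw [if_neg hij, Pi.single_eq_of_ne (fun h => hij (Subtype.ext h).symm), map_zero]
    have h6 : ∑ l, aeval t (pderiv l (pderiv (i : Fin (n + 2)) G)) * D j (t l) =
        ∑ l : {j : Fin (n + 2) // j ≠ 0}, M i l * B l j := by
      have h7 : ∀ l : {j : Fin (n + 2) // j ≠ 0}, M i l * B l j =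
          aeval t (pderiv (l : Fin (n + 2)) (pderiv (i : Fin (n + 2)) G)) * D j (t l) := by
        intro l
        have h8 : t (l : Fin (n + 2)) = y l := by rw [← hty]
        rw [h8]
        rfl
      rw [Finset.sum_congr rfl fun l _ => h7 l]
      have h8 : ∑ l, aeval t (pderiv l (pderiv (i : Fin (n + 2)) G)) * D j (t l) =
          ∑ l ∈ Finset.univ.filter (fun l : Fin (n + 2) => l ≠ 0),
            aeval t (pderiv l (pderiv (i : Fin (n + 2)) G)) * D j (t l) := by
        symm
        refine Finset.sum_subset (Finset.filter_subset _ _) fun l _ hl => ?_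
        have hl0 : l = 0 := by
          by_contra h
          exact hl (Finset.mem_filter.2 ⟨Finset.mem_univ _, h⟩)
        rw [hl0, ht0, Derivation.map_one_eq_zero, mul_zero]
      rw [h8]
      exact Finset.sum_subtype (Finset.univ.filter fun l : Fin (n + 2) => l ≠ 0)
        (by simp) (fun l => aeval t (pderiv l (pderiv (i : Fin (n + 2)) G)) * D j (t l))
    rw [h4, h6] at h3
    exact eq_neg_of_add_eq_zero_right h3.symm
  have hMdet : M.det = 0 := by
    rw [← Matrix.det_transpose, ← h2, AlgHom.map_det]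
    congr 1
    ext i l
    change aeval t (pderiv (i : Fin (n + 2)) (pderiv (l : Fin (n + 2)) G)) =
      aeval y (pderiv i (pderiv l (deh 0 G)))
    rw [pderiv_deh, pderiv_deh, hdeh]
  have h3 := congrArg Matrix.det hMB
  rw [Matrix.det_mul, hMdet, zero_mul, Matrix.det_neg, Matrix.det_one, mul_one] at h3
  exact (pow_ne_zero _ (neg_ne_zero.2 one_ne_zero)) h3.symm

end Pool.Agent.U41.PH
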